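import Pool.Agent.H38.CUBE.JJStmts2
import Pool.Agent.H38.CUBE.JJAct
import Pool.Agent.H87.CUBE.J_COE

/-!
# Cube project, block JJ, part 2: coefficients of `ex3 x * y` and of `phiT y`
-/

set_option autoImplicit false

open Polynomial

namespace Pool.CUBE

open Pool.CM Pool.H93.Cube

namespace F_ACT

variable {E : Type} [Field E]

theorem kB3_monomial (k u w : ℕ) (e : E) :
    kB3 E (Polynomial.monomial k (Polynomial.monomial u (Polynomial.monomial w e))) =
      Corner.cF E e * (Corner.lamF E ^ u * Corner.sigF E ^ k * Corner.tauF E ^ w) := by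
  unfold kB3 kB2
  rw [Polynomial.coe_eval₂RingHom, Polynomial.eval₂_monomial, Polynomial.coe_eval₂RingHom,
    Polynomial.eval₂_monomial, Polynomial.coe_eval₂RingHom, Polynomial.eval₂_monomial]
  ring

theorem cf3_monomial (k u w : ℕ) (e : E) (y : T3 E) (l s t : ℤ) :
    cf3 (ex3 E (kB3 E (Polynomial.monomial k (Polynomial.monomial u (Polynomial.monomial w e)))) * y)
      l s t = e * cf3 y (l - u) (s - k) (t - w) := by
  rw [kB3_monomial, map_mul (ex3 E), mul_assoc]
  exact (J_COE.ev_cF l s t e _).trans (congrArg (fun z => e * z) (J_COE.ev_shift u k w l s t y))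

end F_ACT

theorem act_thm : ACTStmt := by
  intro E _
  refine ⟨fun x y l s t => ?_, fun φ p hp y => ?_⟩
  · induction x using B3_induction with
    | _h0 => rw [map_zero, map_zero, zero_mul, act_zero, cf3_zero]
    | hadd a b ha hb => rw [map_add, map_add, add_mul, cf3_add, ha, hb, act_add]
    | hm k u w e => rw [F_ACT.cf3_monomial, act_monomial, smul_eq_mul]
  · funext l s t
    unfold cf3 phiT phF
    by_cases hl : (p : ℤ) ∣ l
    · obtain ⟨l', rfl⟩ := hl
      by_cases hs : (p : ℤ) ∣ s
      · obtain ⟨s', rfl⟩ := hs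
        by_cases ht : (p : ℤ) ∣ t
        · obtain ⟨t', rfl⟩ := ht
          have hp' : (p : ℤ) ≠ 0 := by exact_mod_cast hp.ne'
          rw [FUN.phiL_coeff_mul, FUN.phiL_coeff_mul, FUN.phiL_coeff_mul, if_pos
            ⟨dvd_mul_right _ _, dvd_mul_right _ _, dvd_mul_right _ _⟩,
            Int.mul_ediv_cancel_left _ hp', Int.mul_ediv_cancel_left _ hp',
            Int.mul_ediv_cancel_left _ hp']
        · rw [FUN.phiL_coeff_mul, FUN.phiL_coeff_mul, FUN.phiL_coeff_not _ _ _ _ _ ht,
            if_neg (fun h => ht h.2.2)]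
      · rw [FUN.phiL_coeff_mul, FUN.phiL_coeff_not _ _ _ _ _ hs, if_neg (fun h => hs h.2.1)]
        rfl
    · rw [FUN.phiL_coeff_not _ _ _ _ _ hl, if_neg (fun h => hl h.1)]
      rfl

end Pool.CUBE
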