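import Pool.Agent.H83.CUBE.JCL

/-!
# Cube project, block JJ: the relations for the functional at infinity
-/

set_option autoImplicit false

open Polynomial

namespace Pool.CUBE.J83

open Pool.CM Pool.H93.Cube Pool.CUBE.Corner

section

variable {n : ℕ} {E : Type} [Field E]

theorem Io_Sig_pow [CharZero E] (h : IOSStmt) (k : ℕ) (g : MvPolynomial (Fin (n + 1)) E) :
    Io (SigP n E ^ k * g) = Io g := by
  induction k with
  | zero => rw [pow_zero, one_mul]
  | succ k ih => rw [pow_succ', mul_assoc, (h n E _).1, ih]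

theorem Io_natCast_mul (k : ℕ) (x : MvPolynomial (Fin (n + 1)) E) :
    Io ((k : MvPolynomial (Fin (n + 1)) E) * x) = (k : E) * Io x := by
  rw [← nsmul_eq_mul, map_nsmul, nsmul_eq_mul]

theorem ez_SigP (i : Fin (n + 1)) : ez i (SigP n E) = MvPolynomial.X i := by
  rw [ez, Derivation.smul_apply, SigP, map_sum, Finset.sum_eq_single i]
  · rw [MvPolynomial.pderiv_X_self, smul_eq_mul, mul_one]
  · intro j _ hj
    exact MvPolynomial.pderiv_X_of_ne hj
  · intro h; exact absurd (Finset.mem_univ _) h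

theorem Io_ez_Sig [CharZero E] (h : IOSStmt) (i : Fin (n + 1)) (D : ℕ)
    (g : MvPolynomial (Fin (n + 1)) E) :
    Io (ez i (SigP n E ^ D) * g) = (D : E) * Io (MvPolynomial.X i * g) := by
  rw [Derivation.leibniz_pow, ez_SigP, smul_eq_mul, nsmul_eq_mul, mul_assoc, mul_assoc,
    Io_natCast_mul, Io_Sig_pow h]

variable (K : Corner n E)

theorem Ainf_zero {L : ℕ} (g : MvPolynomial (Fin (n + 1)) E) {l : ℕ} (t : ℕ) {N : ℤ}
    (h : ¬ (L : ℤ) + l ≤ N + 1) : K.Ainf L g l t N = 0 := by
  rw [Corner.Ainf, if_neg h]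

theorem Ainf_nat (L' l k t : ℕ) (g : MvPolynomial (Fin (n + 1)) E) :
    K.Ainf (L' + 1) g l t ((L' + l + k : ℕ) : ℤ) =
      (-1) ^ l * (((L' + l + k).factorial : E) / ((l.factorial : E) * (k.factorial : E))) *
        Io (g * fer n K.D E ^ l * (K.GP ^ k).coeff t) := by
  have h1 : (((L' + 1 : ℕ) : ℤ)) + l ≤ ((L' + l + k : ℕ) : ℤ) + 1 := by push_cast; omega
  have h2 : (((L' + l + k : ℕ) : ℤ) + 1 - ((L' + 1 : ℕ) : ℤ) - (l : ℤ)).toNat = k := by
    push_cast; omega
  rw [Corner.Ainf, if_pos h1, h2, Int.toNat_natCast]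

end

end Pool.CUBE.J83

namespace Pool.CUBE

open Pool.CM Pool.H93.Cube Pool.CUBE.Corner Pool.CUBE.J83

theorem arel_thm (h : IOSStmt) : Corner.ARELStmt := by
  intro n E _ _ K L l t g i N hL hg hD
  by_cases hC : (L : ℤ) + l ≤ N + 1
  · obtain ⟨L', rfl⟩ : ∃ L', L = L' + 1 := ⟨L - 1, by omega⟩
    obtain ⟨k, rfl⟩ : ∃ k : ℕ, N = ((L' + l + k : ℕ) : ℤ) :=
      ⟨(N - L' - l).toNat, by push_cast at hC ⊢; omega⟩
    set F := fer n K.D E ^ l with hF
    set Q := (K.GP ^ k).coeff t with hQ
    set c : E := (-1) ^ l * (((L' + l + k).factorial : E) /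
      ((l.factorial : E) * (k.factorial : E))) with hc
    have hkf : ∀ m : ℕ, ((m.factorial : ℕ) : E) ≠ 0 := fun m =>
      Nat.cast_ne_zero.2 (Nat.factorial_ne_zero m)
    -- the first term
    have hT1 : K.Ainf (L' + 1 + 1) (ez i (SigP n E ^ K.D) * g) l t
        (((L' + l + k : ℕ) : ℤ) + 1) =
        c * (((L' + l + k + 1 : ℕ) : E) * ((K.D : E) * Io (MvPolynomial.X i * (g * F * Q)))) := by
      have e1 : ((L' + l + k : ℕ) : ℤ) + 1 = ((L' + 1 + l + k : ℕ) : ℤ) := by push_cast; ring
      have e2 : L' + 1 + l + k = L' + l + k + 1 := by ring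
      have e3 : ez i (SigP n E ^ K.D) * g * F * Q = ez i (SigP n E ^ K.D) * (g * F * Q) := by
        rw [mul_assoc, mul_assoc, mul_assoc]
      rw [e1, Ainf_nat, ← hF, ← hQ, e3, Io_ez_Sig h, e2, Nat.factorial_succ, hc, Nat.cast_mul]
      ring
    -- the second term
    have hT2 : ∑ a ∈ Finset.range (t + 1), K.Ainf (L' + 1 + 1) (ez i (K.G a) * g) l (t - a)
        ((L' + l + k : ℕ) : ℤ) = c * Io (g * F * ez i Q) := by
      rcases Nat.eq_zero_or_pos k with hk | hk
      · have h0 : ∀ a ∈ Finset.range (t + 1), K.Ainf (L' + 1 + 1) (ez i (K.G a) * g) l (t - a)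
            ((L' + l + k : ℕ) : ℤ) = 0 := by
          intro a _
          apply Ainf_zero
          push_cast
          omega
        rw [Finset.sum_eq_zero h0, hQ, hk, pow_zero, Polynomial.coeff_one]
        split_ifs
        · rw [Derivation.map_one_eq_zero, mul_zero, map_zero, mul_zero]
        · rw [map_zero, mul_zero, map_zero, mul_zero]
      · obtain ⟨k', rfl⟩ : ∃ k', k = k' + 1 := ⟨k - 1, by omega⟩
        have h0 : ∀ a ∈ Finset.range (t + 1), K.Ainf (L' + 1 + 1) (ez i (K.G a) * g) l (t - a)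
            ((L' + l + (k' + 1) : ℕ) : ℤ) = c * (((k' + 1 : ℕ) : E) *
              Io (g * F * (ez i (K.G a) * (K.GP ^ k').coeff (t - a)))) := by
          intro a _
          have e1 : L' + l + (k' + 1) = L' + 1 + l + k' := by ring
          have e3 : ez i (K.G a) * g * fer n K.D E ^ l * (K.GP ^ k').coeff (t - a) =
            g * F * (ez i (K.G a) * (K.GP ^ k').coeff (t - a)) := by rw [hF]; ring
          rw [hc, e1, Ainf_nat, e3, Nat.factorial_succ k']
          have h5 : ((k' + 1 : ℕ) : E) ≠ 0 := Nat.cast_ne_zero.2 (by omega)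
          have h6 := hkf l
          have h7 := hkf k'
          rw [Nat.cast_mul]
          field_simp
        rw [Finset.sum_congr rfl h0, ← Finset.mul_sum, ← Finset.mul_sum, ← map_sum,
          ← Finset.mul_sum]
        have h2 : ez i Q = ((k' + 1 : ℕ) : MvPolynomial (Fin (n + 1)) E) *
            ∑ a ∈ Finset.range (t + 1), ez i (K.G a) * (K.GP ^ k').coeff (t - a) := by
          rw [hQ, ez_pow_coeff]
          simp only [GP_coeff]
        rw [h2, mul_left_comm (g * F), Io_natCast_mul]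
    -- the third term
    have hT3 : (if l = 0 then 0 else K.Ainf (L' + 1 + 1) (ez i (fer n K.D E) * g) (l - 1) t
        ((L' + l + k : ℕ) : ℤ)) = - (c * Io (g * ez i F * Q)) := by
      rcases Nat.eq_zero_or_pos l with hl | hl
      · rw [if_pos hl, hF, hl, pow_zero, Derivation.map_one_eq_zero, mul_zero, zero_mul, map_zero,
          mul_zero, neg_zero]
      · obtain ⟨l', rfl⟩ : ∃ l', l = l' + 1 := ⟨l - 1, by omega⟩
        have e1 : L' + (l' + 1) + k = L' + 1 + l' + k := by ring
        have e3 : g * ez i F * Q = ((l' + 1 : ℕ) : MvPolynomial (Fin (n + 1)) E) *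
            (ez i (fer n K.D E) * g * fer n K.D E ^ l' * Q) := by
          rw [hF, Derivation.leibniz_pow, Nat.add_sub_cancel, smul_eq_mul, nsmul_eq_mul]
          ring
        rw [if_neg (by omega), Nat.add_sub_cancel, e3, Io_natCast_mul, hc,
          e1, Ainf_nat, ← hQ, Nat.factorial_succ l', pow_succ]
        have h5 : ((l' + 1 : ℕ) : E) ≠ 0 := Nat.cast_ne_zero.2 (by omega)
        have h6 := hkf l'
        have h7 := hkf k
        rw [Nat.cast_mul]
        field_simp
    have hHom : (g * F * Q).IsHomogeneous (K.D * (L' + 1) - (n + 1) + K.D * l + K.D * k) :=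
      (hg.mul (by simpa [hF] using (fer_hom (n := n) (E := E) K.D).pow l)).mul (GPpow_hom K k t)
    have hE := (h n E (g * F * Q)).2 i _ hHom
    have hd : K.D * (L' + 1) - (n + 1) + K.D * l + K.D * k + n + 1 = K.D * (L' + l + k + 1) := by
      have : K.D * (L' + 1) - (n + 1) + (n + 1) = K.D * (L' + 1) := Nat.sub_add_cancel hD
      calc _ = (K.D * (L' + 1) - (n + 1) + (n + 1)) + K.D * l + K.D * k := by ring
        _ = _ := by rw [this]; ring
    rw [hd, Derivation.leibniz, Derivation.leibniz] at hE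
    rw [hT1, hT2, hT3, Ainf_nat, ← hF, ← hQ, ← hc]
    have hsplit : Io ((ez i g + g) * F * Q) = Io ((g * F) • ez i Q + Q • (g • ez i F + F • ez i g)
        + g * F * Q) - Io (g * F * ez i Q) - Io (g * ez i F * Q) := by
      rw [← map_sub, ← map_sub]
      congr 1
      simp only [smul_eq_mul]
      ring
    rw [hsplit, hE]
    push_cast
    ring
  · rw [Ainf_zero K _ _ hC, Ainf_zero K _ _ (by push_cast; omega), Finset.sum_eq_zero]
    · split_ifs with hl
      · ring
      · rw [Ainf_zero K _ _ (by push_cast [Nat.cast_sub (Nat.one_le_iff_ne_zero.2 hl)]; omega)]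
        ring
    · intro k _
      apply Ainf_zero
      push_cast
      omega

end Pool.CUBE
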