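import Pool.Agent.H83.CUBE.JCL

/-!
# Cube project, block JJ: evaluation of the rational functions `rr` at integers
-/

set_option autoImplicit false

open Polynomial

namespace Pool.CUBE.J83

open Pool.CM Pool.H93.Cube Pool.CUBE.Corner

section Aff

variable {E : Type} [Field E]

theorem affR_algebraMap (u v : E) (hu : u ≠ 0) (g : E[X]) :
    affR u v hu (algebraMap E[X] (RatFunc E) g) = algebraMap E[X] (RatFunc E) (affP u v g) := by
  unfold affR
  rw [RatFunc.coe_mapRingHom_eq_coe_map]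
  have h := RatFunc.map_apply_div (affP u v) (affP_le u v hu) g 1
  simpa using h

theorem ratHom_ext {L : Type} [Field L] {f g : RatFunc E →+* L}
    (h : ∀ p : E[X], f (algebraMap E[X] (RatFunc E) p) = g (algebraMap E[X] (RatFunc E) p)) :
    f = g :=
  IsLocalization.ringHom_ext (nonZeroDivisors E[X]) (RingHom.ext h)

theorem affP_comp (x y : E) (g : E[X]) : affP 1 x (affP 1 y g) = affP 1 (x + y) g := by
  have h : (affP 1 x).comp (affP 1 y) = affP (E := E) 1 (x + y) := by
    refine Polynomial.ringHom_ext (fun a => ?_) ?_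
    · simp [affP]
    · simp [affP, add_assoc]
  exact congrArg (fun f : E[X] →+* E[X] => f g) h

theorem affR_comp (x y : E) (r : RatFunc E) :
    affR 1 x one_ne_zero (affR 1 y one_ne_zero r) = affR 1 (x + y) one_ne_zero r := by
  have h : (affR 1 x one_ne_zero).comp (affR 1 y one_ne_zero) =
      affR (E := E) 1 (x + y) one_ne_zero := by
    refine ratHom_ext fun p => ?_
    rw [RingHom.comp_apply, affR_algebraMap, affR_algebraMap, affR_algebraMap, affP_comp]
  exact congrArg (fun f : RatFunc E →+* RatFunc E => f r) h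

theorem affP_coeff_zero (x : E) (g : E[X]) : (affP 1 x g).coeff 0 = g.eval x := by
  have h : (Polynomial.evalRingHom (0 : E)).comp (affP 1 x) = Polynomial.evalRingHom x := by
    refine Polynomial.ringHom_ext (fun a => ?_) ?_
    · simp [affP]
    · simp [affP]
  rw [Polynomial.coeff_zero_eq_eval_zero]
  exact congrArg (fun f : E[X] →+* E => f g) h

/-- the rational function `r` is regular at `x` with value `v` -/
def Ev (x : E) (r : RatFunc E) (v : E) : Prop :=
  ∃ f : PowerSeries E, ex E (affR 1 x one_ne_zero r) = HahnSeries.ofPowerSeries ℤ E f ∧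
    PowerSeries.constantCoeff f = v

theorem Ev.add {x : E} {r s : RatFunc E} {v w : E} (h1 : Ev x r v) (h2 : Ev x s w) :
    Ev x (r + s) (v + w) := by
  obtain ⟨f, hf, rfl⟩ := h1
  obtain ⟨g, hg, rfl⟩ := h2
  exact ⟨f + g, by rw [map_add, map_add, hf, hg, map_add], map_add _ _ _⟩

theorem Ev.mul {x : E} {r s : RatFunc E} {v w : E} (h1 : Ev x r v) (h2 : Ev x s w) :
    Ev x (r * s) (v * w) := by
  obtain ⟨f, hf, rfl⟩ := h1
  obtain ⟨g, hg, rfl⟩ := h2
  exact ⟨f * g, by rw [map_mul, map_mul, hf, hg, map_mul], map_mul _ _ _⟩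

theorem Ev.alg (x : E) (g : E[X]) : Ev x (algebraMap E[X] (RatFunc E) g) (g.eval x) := by
  refine ⟨((affP 1 x g : E[X]) : PowerSeries E), ?_, ?_⟩
  · rw [affR_algebraMap, ex_algebraMap]
    rfl
  · rw [← affP_coeff_zero, ← PowerSeries.coeff_zero_eq_constantCoeff_apply, Polynomial.coeff_coe]

theorem Ev.inv {x : E} {r : RatFunc E} {v : E} (h : Ev x r v) (hv : v ≠ 0) : Ev x r⁻¹ v⁻¹ := by
  obtain ⟨f, hf, rfl⟩ := h
  refine ⟨f⁻¹, ?_, PowerSeries.constantCoeff_inv f⟩
  rw [map_inv₀, map_inv₀, hf]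
  refine (eq_inv_of_mul_eq_one_left ?_).symm
  rw [← map_mul, PowerSeries.inv_mul_cancel f hv, map_one]

theorem Ev.sum {ι : Type} (s : Finset ι) {x : E} {r : ι → RatFunc E} {v : ι → E}
    (h : ∀ i ∈ s, Ev x (r i) (v i)) : Ev x (∑ i ∈ s, r i) (∑ i ∈ s, v i) := by
  classical
  induction s using Finset.induction_on with
  | empty =>
    rw [Finset.sum_empty, Finset.sum_empty]
    simpa using Ev.alg x (0 : E[X])
  | insert a s ha ih =>
    rw [Finset.sum_insert ha, Finset.sum_insert ha]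
    exact (h a (Finset.mem_insert_self _ _)).add
      (ih fun i hi => h i (Finset.mem_insert_of_mem hi))

theorem Ev.prod {ι : Type} (s : Finset ι) {x : E} {r : ι → RatFunc E} {v : ι → E}
    (h : ∀ i ∈ s, Ev x (r i) (v i)) : Ev x (∏ i ∈ s, r i) (∏ i ∈ s, v i) := by
  classical
  induction s using Finset.induction_on with
  | empty =>
    rw [Finset.prod_empty, Finset.prod_empty]
    simpa using Ev.alg x (1 : E[X])
  | insert a s ha ih =>
    rw [Finset.prod_insert ha, Finset.prod_insert ha]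
    exact (h a (Finset.mem_insert_self _ _)).mul
      (ih fun i hi => h i (Finset.mem_insert_of_mem hi))

theorem Ev.C (x c : E) : Ev x (RatFunc.C c) c := by
  simpa using Ev.alg x (Polynomial.C c)

theorem Ev.natCast (x : E) (k : ℕ) : Ev x (k : RatFunc E) (k : E) := by
  simpa using Ev.alg x (k : E[X])

theorem Ev.one (x : E) : Ev x 1 1 := by
  simpa using Ev.alg x (1 : E[X])

theorem Ev.pow {x : E} {r : RatFunc E} {v : E} (h : Ev x r v) (k : ℕ) : Ev x (r ^ k) (v ^ k) := by
  induction k with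
  | zero => rw [pow_zero, pow_zero]; exact Ev.one x
  | succ k ih => rw [pow_succ, pow_succ]; exact ih.mul h

theorem Ev.neg {x : E} {r : RatFunc E} {v : E} (h : Ev x r v) : Ev x (-r) (-v) := by
  have h1 := (Ev.C x (-1)).mul h
  simpa using h1

theorem Ev.X (x : E) : Ev x RatFunc.X x := by
  simpa using Ev.alg x Polynomial.X

theorem Ev.shift {x y : E} {r : RatFunc E} {v : E} (h : Ev (x + y) r v) :
    Ev x (affR 1 y one_ne_zero r) v := by
  obtain ⟨f, hf, rfl⟩ := h
  exact ⟨f, by rw [affR_comp, hf], rfl⟩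

theorem Ev.congr {x y : E} {r : RatFunc E} {v w : E} (h : Ev x r v) (hx : x = y) (hv : v = w) :
    Ev y r w := by subst hx; subst hv; exact h

theorem Ev.Rc0 {N : ℤ} {r : RatFunc E} {v : E} (h : Ev (N : E) r v) : Rc 0 N r = v := by
  obtain ⟨f, hf, rfl⟩ := h
  have h1 : lexp N r = HahnSeries.ofPowerSeries ℤ E f := hf
  rw [Rc, h1, pow_zero, Nat.factorial_zero, Nat.cast_one, div_one, one_mul, Nat.cast_zero,
    neg_zero, ← PowerSeries.coeff_zero_eq_constantCoeff_apply]
  exact HahnSeries.ofPowerSeries_apply_coeff f 0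

theorem Ev.Rcj {N : ℤ} {r : RatFunc E} {v : E} (h : Ev (N : E) r v) {j : ℕ} (hj : 1 ≤ j) :
    Rc j N r = 0 := by
  obtain ⟨f, hf, rfl⟩ := h
  have h1 : lexp N r = HahnSeries.ofPowerSeries ℤ E f := hf
  rw [Rc, h1]
  have h2 : (HahnSeries.ofPowerSeries ℤ E f).coeff (-(j : ℤ)) = 0 := by
    rw [HahnSeries.ofPowerSeries_apply]
    refine HahnSeries.embDomain_of_notMem_range ?_
    rintro ⟨n, hn⟩
    have : (n : ℤ) = -(j : ℤ) := hn
    omega
  rw [h2, mul_zero]

theorem Ev.binR [CharZero E] (m k : ℕ) : Ev (m : E) (binR E k) ((m.choose k : ℕ) : E) := by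
  refine (Ev.alg (m : E) _).congr rfl ?_
  rw [Polynomial.eval_mul, Polynomial.eval_C, descPochhammer_eval_eq_descFactorial,
    Nat.descFactorial_eq_factorial_mul_choose, Nat.cast_mul, ← mul_assoc, inv_mul_cancel₀, one_mul]
  exact Nat.cast_ne_zero.2 (Nat.factorial_ne_zero k)

end Aff

section Mellin

variable {n : ℕ} {E : Type} [Field E]

theorem Bx_add (γ μ : Fin n →₀ ℕ) (k : ℕ) (i : Fin n) :
    Bx (γ + k • μ) i = Bx γ i + Mx μ i * k := by
  rw [Bx, Bx, Mx, Finset.sum_mul, ← Finset.sum_add_distrib]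
  refine Finset.sum_congr rfl fun i' _ => ?_
  rw [Finsupp.add_apply, Finsupp.smul_apply, smul_eq_mul]
  ring

theorem Bx_pos (γ : Fin n →₀ ℕ) (i : Fin n) : 0 < Bx γ i :=
  Finset.sum_pos (fun _ _ => Nat.succ_pos _) ⟨i, by simp⟩

theorem Ev_Mell [CharZero E] (μ : Fin n →₀ ℕ) (k : ℕ) (h : MvPolynomial (Fin n) E) :
    Ev (k : E) (Mell μ h) (Intc (h * MvPolynomial.monomial μ 1 ^ k)) := by
  induction h using MvPolynomial.induction_on' with
  | add p q hp hq =>
    rw [map_add, add_mul, map_add]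
    exact hp.add hq
  | monomial γ r =>
    rw [Mell, linMon_monomial, MvPolynomial.monomial_pow, MvPolynomial.monomial_mul, one_pow,
      mul_one, Intc, linMon_monomial, smul_eq_mul, RatFunc.smul_eq_C_mul]
    refine (Ev.C _ r).mul (Ev.prod _ fun i _ => ?_)
    rw [Bx_add]
    have h1 := ((Ev.natCast (k : E) (Bx γ i)).add
      ((Ev.natCast (k : E) (Mx μ i)).mul (Ev.X (k : E))))
    have h2 : ((Bx γ i : ℕ) : E) + ((Mx μ i : ℕ) : E) * (k : E) = ((Bx γ i + Mx μ i * k : ℕ) : E) := by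
      push_cast; ring
    rw [h2] at h1
    refine h1.inv (Nat.cast_ne_zero.2 ?_)
    have := Bx_pos γ i
    omega

end Mellin

section Zc

variable {n : ℕ} {E : Type} [Field E]

theorem sum_filter_tel {M : Type} [AddCommGroup M] (f : ℕ → M) (l m : ℕ) (h : l ≤ m) :
    ∑ i ∈ (Finset.range m).filter (fun i => l ≤ i), (f i - f (i + 1)) = f l - f m := by
  induction m, h using Nat.le_induction with
  | base =>
    rw [Finset.sum_eq_zero, sub_self]
    intro i hi
    rw [Finset.mem_filter, Finset.mem_range] at hi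
    omega
  | succ m hm ih =>
    rw [Finset.range_add_one, Finset.filter_insert, if_pos hm, Finset.sum_insert, ih]
    · abel
    · simp

theorem zc_sum (l : ℕ) (hl : l ≤ n + 1) :
    zc (n := n) (E := E) (∑ i ∈ Finset.univ.filter (fun i : Fin (n + 1) => l ≤ (i : ℕ)),
      MvPolynomial.X i) = cpt E n l := by
  rw [map_sum]
  have h1 : ∀ i ∈ Finset.univ.filter (fun i : Fin (n + 1) => l ≤ (i : ℕ)),
      zc (MvPolynomial.X i : MvPolynomial (Fin (n + 1)) E) =
        cpt E n i - cpt E n (i + 1) := by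
    intro i _
    rw [zc, MvPolynomial.aeval_X]
  rw [Finset.sum_congr rfl h1, Finset.sum_filter,
    Fin.sum_univ_eq_sum_range (fun i => if l ≤ i then cpt E n i - cpt E n (i + 1) else 0) (n + 1),
    ← Finset.sum_filter, sum_filter_tel (cpt E n) l (n + 1) hl]
  have h2 : cpt E n (n + 1) = 0 := by
    rw [cpt, if_neg (by omega), dif_neg (by omega)]
  rw [h2, sub_zero]

theorem zc_SigP : zc (n := n) (E := E) (SigP n E) = 1 := by
  have h := zc_sum (n := n) (E := E) 0 (Nat.zero_le _)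
  have h2 : cpt E n 0 = 1 := by rw [cpt, if_pos rfl]
  rw [h2] at h
  rw [← h, SigP]
  simp

theorem zc_clP (l : Fin n) : zc (n := n) (E := E) (clP n E l) = MvPolynomial.X l := by
  have h := zc_sum (n := n) (E := E) (l + 1) (by omega)
  have h2 : cpt E n (l + 1) = MvPolynomial.X l := by
    rw [cpt, if_neg (by omega), dif_pos (by have := l.2; omega)]
    congr 1
  rw [h2] at h
  rw [← h, clP]
  rfl

theorem zc_homD (D : ℕ) (h : MvPolynomial (Fin n) E) : zc (homD D h) = h := by
  induction h using MvPolynomial.induction_on' with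
  | add p q hp hq => rw [map_add, map_add, hp, hq]
  | monomial γ r =>
    rw [homD, linMon_monomial, map_smul, map_mul, map_pow, zc_SigP, one_pow, one_mul, map_prod,
      MvPolynomial.smul_eq_C_mul, MvPolynomial.monomial_eq]
    congr 1
    rw [Finsupp.prod_fintype _ _ (by simp)]
    refine Finset.prod_congr rfl fun l _ => ?_
    rw [map_pow, zc_clP]

variable (K : Corner n E)

theorem map_zc_GP : K.GP.map (zc (n := n) (E := E)).toRingHom =
    Polynomial.C (MvPolynomial.monomial K.μ 1) * (1 + K.w) := by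
  ext1 k
  rw [Polynomial.coeff_map, GP_coeff, Polynomial.coeff_C_mul, Corner.G]
  exact zc_homD _ _

theorem zc_GPpow (k t : ℕ) : zc ((K.GP ^ k).coeff t) =
    MvPolynomial.monomial K.μ 1 ^ k * ((1 + K.w) ^ k).coeff t := by
  have h : (zc (n := n) (E := E)).toRingHom ((K.GP ^ k).coeff t) =
      ((K.GP ^ k).map (zc (n := n) (E := E)).toRingHom).coeff t := by
    rw [Polynomial.coeff_map]
  refine h.trans ?_
  rw [Polynomial.map_pow, map_zc_GP, mul_pow, ← Polynomial.C_pow, Polynomial.coeff_C_mul]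

theorem w_pow_coeff {j t : ℕ} (h : t < j) : (K.w ^ j).coeff t = 0 := by
  obtain ⟨q, hq⟩ := Polynomial.X_dvd_iff.2 K.hw
  rw [hq, mul_pow, Polynomial.coeff_X_pow_mul', if_neg (by omega)]

theorem one_add_w_pow_coeff (k t : ℕ) : ((1 + K.w) ^ k).coeff t =
    ∑ j ∈ Finset.range (t + 1), ((k.choose j : ℕ) : MvPolynomial (Fin n) E) *
      (K.w ^ j).coeff t := by
  have h1 : ((1 + K.w) ^ k).coeff t = ∑ j ∈ Finset.range (k + 1),
      ((k.choose j : ℕ) : MvPolynomial (Fin n) E) * (K.w ^ j).coeff t := by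
    rw [add_comm 1 K.w, add_pow, Polynomial.finsetSum_coeff]
    refine Finset.sum_congr rfl fun j _ => ?_
    rw [one_pow, mul_one, ← Polynomial.C_eq_natCast, Polynomial.coeff_mul_C, mul_comm]
  rw [h1]
  have h2 : ∀ a b : ℕ, ∑ j ∈ Finset.range (k + 1 + t),
      ((k.choose j : ℕ) : MvPolynomial (Fin n) E) * (K.w ^ j).coeff t =
      ∑ j ∈ Finset.range (k + 1),
      ((k.choose j : ℕ) : MvPolynomial (Fin n) E) * (K.w ^ j).coeff t := by
    intro _ _
    refine (Finset.sum_subset ?_ ?_).symm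
    · exact Finset.range_subset_range.2 (by omega)
    · intro j _ hj
      rw [Finset.mem_range, not_lt] at hj
      rw [Nat.choose_eq_zero_of_lt (by omega), Nat.cast_zero, zero_mul]
  rw [← h2 0 0]
  refine (Finset.sum_subset ?_ ?_).symm
  · exact Finset.range_subset_range.2 (by omega)
  · intro j _ hj
    rw [Finset.mem_range, not_lt] at hj
    rw [w_pow_coeff K (by omega), mul_zero]

end Zc

end Pool.CUBE.J83

namespace Pool.CUBE

open Pool.CM Pool.H93.Cube Pool.CUBE.Corner Pool.CUBE.J83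

theorem evr_thm (_hRC : RCStmt) (hDIR : DIRStmt) : Corner.EVRStmt := by
  intro n E _ _ K L l t g N hL hN
  obtain ⟨L', rfl⟩ : ∃ L', L = L' + 1 := ⟨L - 1, by omega⟩
  obtain ⟨k, rfl⟩ : ∃ k : ℕ, N = ((L' + l + k : ℕ) : ℤ) :=
    ⟨(N - L' - l).toNat, by push_cast at hN ⊢; omega⟩
  suffices h : Ev ((((L' + l + k : ℕ) : ℤ)) : E) (K.rr (L' + 1) g l t)
      (K.Ainf (L' + 1) g l t ((L' + l + k : ℕ) : ℤ)) from ⟨h.Rc0, fun j hj => h.Rcj hj⟩
  rw [Int.cast_natCast]
  have e1 : L' + 1 + l - 1 = L' + l := by omega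
  have hS : Ev (((L' + l + k : ℕ) : E) + (1 - ((L' + 1 : ℕ) : E) - (l : E)))
      (∑ j ∈ Finset.range (t + 1), binR E j *
        Mell K.μ (zc (g * fer n K.D E ^ l) * (K.w ^ j).coeff t))
      (∑ j ∈ Finset.range (t + 1), ((k.choose j : ℕ) : E) *
        Intc (zc (g * fer n K.D E ^ l) * (K.w ^ j).coeff t *
          MvPolynomial.monomial K.μ 1 ^ k)) := by
    refine Ev.congr (Ev.sum _ fun j _ => (Ev.binR (E := E) k j).mul (Ev_Mell K.μ k _)) ?_ rfl
    push_cast; ring
  have h1 : Ev (((L' + l + k : ℕ) : E)) (K.rr (L' + 1) g l t)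
      ((-1) ^ l * (((L' + l).factorial : E) / (l.factorial : E)) *
        (((L' + l + k).choose (L' + l) : ℕ) : E) * (∑ j ∈ Finset.range (t + 1),
        ((k.choose j : ℕ) : E) * Intc (zc (g * fer n K.D E ^ l) * (K.w ^ j).coeff t *
          MvPolynomial.monomial K.μ 1 ^ k))) := by
    rw [Corner.rr, e1]
    refine Ev.mul (Ev.mul (Ev.mul ?_ ?_) (Ev.binR _ _)) hS.shift
    · exact (Ev.neg (Ev.one _)).pow l
    · rw [div_eq_mul_inv, div_eq_mul_inv]
      exact (Ev.natCast _ _).mul ((Ev.natCast _ _).inv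
        (Nat.cast_ne_zero.2 (Nat.factorial_ne_zero l)))
  refine h1.congr rfl ?_
  have hN2 : (((L' + 1 : ℕ) : ℤ)) + l ≤ ((L' + l + k : ℕ) : ℤ) + 1 := by push_cast; omega
  have h2 : (((L' + l + k : ℕ) : ℤ) + 1 - ((L' + 1 : ℕ) : ℤ) - (l : ℤ)).toNat = k := by
    push_cast; omega
  rw [Corner.Ainf, if_pos hN2, h2, Int.toNat_natCast, hDIR n E,
    map_mul zc (g * fer n K.D E ^ l), zc_GPpow, one_add_w_pow_coeff,
    Finset.mul_sum (a := MvPolynomial.monomial K.μ 1 ^ k),
    Finset.mul_sum (a := zc (g * fer n K.D E ^ l)), map_sum]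
  have h3 : ∑ j ∈ Finset.range (t + 1), Intc (zc (g * fer n K.D E ^ l) *
      (MvPolynomial.monomial K.μ 1 ^ k * (((k.choose j : ℕ) : MvPolynomial (Fin n) E) *
        (K.w ^ j).coeff t))) = ∑ j ∈ Finset.range (t + 1),
        ((k.choose j : ℕ) : E) * Intc (zc (g * fer n K.D E ^ l) * (K.w ^ j).coeff t *
          MvPolynomial.monomial K.μ 1 ^ k) := by
    refine Finset.sum_congr rfl fun j _ => ?_
    rw [← nsmul_eq_mul ((k.choose j : ℕ)) (Intc _), ← map_nsmul, nsmul_eq_mul]
    congr 1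
    ring
  rw [h3]
  congr 1
  have h4 : ((L' + l + k).factorial : E) = ((L' + l + k).choose (L' + l) : ℕ) *
      (((L' + l).factorial : E) * (k.factorial : E)) := by
    rw [← Nat.cast_mul, ← Nat.cast_mul]
    congr 1
    have := Nat.add_choose_mul_factorial_mul_factorial (L' + l) k
    rw [← this, Nat.choose_symm_add]
    ring
  have h5 : (l.factorial : E) ≠ 0 := Nat.cast_ne_zero.2 (Nat.factorial_ne_zero l)
  have h6 : (k.factorial : E) ≠ 0 := Nat.cast_ne_zero.2 (Nat.factorial_ne_zero k)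
  rw [h4]
  field_simp

end Pool.CUBE
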