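import Pool.Agent.H38.CUBE.JJStmts

/-!
# Cube project, block JJ: the relations for the rational functions
-/

set_option autoImplicit false

open Polynomial

namespace Pool.CUBE

open Pool.CM Pool.H93.Cube Pool.CUBE.Corner

theorem rrel_thm (hRC : RCStmt) (hRAT0 : RAT0Stmt) (hEVR : Corner.EVRStmt)
    (hAREL : Corner.ARELStmt) : Corner.RRELStmt := by
  intro n E _ _ K L l t g i hL hg hD
  obtain ⟨hadd, -, hshift, -⟩ := hRC E
  rw [← sub_eq_zero]
  apply hRAT0 E _ ((L : ℤ) + l)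
  intro N hN
  have hm : ∀ r s : RatFunc E, Rc 0 N (r + s) = Rc 0 N r + Rc 0 N s := hadd 0 N
  let φ : RatFunc E →+ E := AddMonoidHom.mk' (Rc 0 N) hm
  change φ _ = 0
  rw [map_sub, map_add, map_sub, map_sum]
  change Rc 0 N _ - (Rc 0 N _ - (∑ k ∈ Finset.range (t + 1), Rc 0 N _) + Rc 0 N _) = 0
  have hz : Rc 0 N (0 : RatFunc E) = 0 := map_zero φ
  have h1 := (hEVR n E K L l t (ez i g + g) N hL (by omega)).1
  have h2 : Rc 0 N (affR 1 1 one_ne_zero (K.rr (L + 1) (ez i (SigP n E ^ K.D) * g) l t)) =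
      K.Ainf (L + 1) (ez i (SigP n E ^ K.D) * g) l t (N + 1) := by
    rw [← (hEVR n E K (L + 1) l t (ez i (SigP n E ^ K.D) * g) (N + 1) (by omega)
      (by push_cast; omega)).1, ← hshift 0 N 1]
    simp only [Int.cast_one]
  have h3 : ∀ k ∈ Finset.range (t + 1), Rc 0 N (K.rr (L + 1) (ez i (K.G k) * g) l (t - k)) =
      K.Ainf (L + 1) (ez i (K.G k) * g) l (t - k) N := fun k _ =>
    (hEVR n E K (L + 1) l (t - k) (ez i (K.G k) * g) N (by omega) (by push_cast; omega)).1
  have h4 : Rc 0 N (if l = 0 then 0 else K.rr (L + 1) (ez i (fer n K.D E) * g) (l - 1) t) =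
      (if l = 0 then 0 else K.Ainf (L + 1) (ez i (fer n K.D E) * g) (l - 1) t N) := by
    split_ifs with hl
    · exact hz
    · exact (hEVR n E K (L + 1) (l - 1) t (ez i (fer n K.D E) * g) N (by omega)
        (by push_cast [Nat.cast_sub (Nat.one_le_iff_ne_zero.2 hl)]; omega)).1
  rw [h1, h2, Finset.sum_congr rfl h3, h4, hAREL n E K L l t g i N hL hg hD, sub_self]

end Pool.CUBE
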