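import Pool.Agent.H38.CUBE.JJStmts

/-!
# Cube project, block JJ: helpers (`GP`, homogeneity, coefficientwise derivation)
-/

set_option autoImplicit false

open Polynomial

namespace Pool.CUBE.J83

open Pool.CM Pool.H93.Cube Pool.CUBE.Corner

/-! ### a derivation acting on the coefficients -/

section DC

variable {B : Type} [CommRing B]

/-- a derivation of `B` acting on the coefficients of polynomials -/
noncomputable def dC (d : Derivation ℤ B B) : Derivation ℤ B[X] B[X] :=
  Derivation.mk'
    (AddMonoidHom.toIntLinearMap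
      { toFun := fun g => g.sum fun n a => monomial n (d a)
        map_zero' := by simp
        map_add' := fun g h => by
          rw [Polynomial.sum_add_index] <;> simp })
    (fun g h => by
      change (g * h).sum (fun n a => monomial n (d a)) =
        g • (h.sum fun n a => monomial n (d a)) + h • (g.sum fun n a => monomial n (d a))
      have hc : ∀ (f : B[X]) (n : ℕ), (f.sum fun n a => monomial n (d a)).coeff n =
          d (f.coeff n) := by
        intro f n
        rw [Polynomial.sum_def, Polynomial.finsetSum_coeff]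
        simp only [Polynomial.coeff_monomial]
        rw [Finset.sum_ite_eq']
        split_ifs with h0
        · rfl
        · rw [Polynomial.notMem_support_iff.1 h0, map_zero]
      ext n
      rw [hc, Polynomial.coeff_add, smul_eq_mul, smul_eq_mul, Polynomial.coeff_mul,
        Polynomial.coeff_mul, mul_comm h, Polynomial.coeff_mul, map_sum, ← Finset.sum_add_distrib]
      refine Finset.sum_congr rfl fun x _ => ?_
      rw [Derivation.leibniz, hc, hc, smul_eq_mul, smul_eq_mul]
      ring)

theorem dC_coeff (d : Derivation ℤ B B) (g : B[X]) (n : ℕ) :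
    (dC d g).coeff n = d (g.coeff n) := by
  change (g.sum fun n a => monomial n (d a)).coeff n = _
  rw [Polynomial.sum_def, Polynomial.finsetSum_coeff]
  simp only [Polynomial.coeff_monomial]
  rw [Finset.sum_ite_eq']
  split_ifs with h0
  · rfl
  · rw [Polynomial.notMem_support_iff.1 h0, map_zero]

/-- derivative of a power, coefficientwise -/
theorem d_pow_coeff (d : Derivation ℤ B B) (G : B[X]) (k t : ℕ) :
    d ((G ^ (k + 1)).coeff t) =
      ((k + 1 : ℕ) : B) * ∑ a ∈ Finset.range (t + 1), d (G.coeff a) * (G ^ k).coeff (t - a) := by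
  rw [← dC_coeff, Derivation.leibniz_pow, Nat.add_sub_cancel, nsmul_eq_mul, smul_eq_mul,
    ← C_eq_natCast, ← mul_assoc, mul_comm (C _ * _), mul_left_comm, coeff_C_mul, coeff_mul,
    Finset.Nat.sum_antidiagonal_eq_sum_range_succ_mk]
  simp only [dC_coeff]

theorem ez_pow_coeff {n : ℕ} {E : Type} [Field E] (i : Fin (n + 1))
    (G : Polynomial (MvPolynomial (Fin (n + 1)) E)) (k t : ℕ) :
    ez i ((G ^ (k + 1)).coeff t) = ((k + 1 : ℕ) : MvPolynomial (Fin (n + 1)) E) *
      ∑ a ∈ Finset.range (t + 1), ez i (G.coeff a) * (G ^ k).coeff (t - a) :=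
  d_pow_coeff ((ez (A := E) i).restrictScalars ℤ) G k t

end DC

/-! ### the polynomial `GP` -/

section GP

variable {n : ℕ} {E : Type} [Field E] (K : Corner n E)

theorem W_zero_of_lt {t : ℕ} (h : (1 + K.w).natDegree < t) : K.W t = 0 :=
  Polynomial.coeff_eq_zero_of_natDegree_lt h

theorem G_zero_of_lt {t : ℕ} (h : (1 + K.w).natDegree < t) : K.G t = 0 := by
  rw [Corner.G, W_zero_of_lt K h, mul_zero, map_zero]

theorem GP_coeff (t : ℕ) : K.GP.coeff t = K.G t := by
  rw [Corner.GP, Polynomial.finsetSum_coeff]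
  simp only [Polynomial.coeff_monomial]
  rw [Finset.sum_ite_eq']
  split_ifs with h
  · rfl
  · rw [Finset.mem_range, not_lt] at h
    exact (G_zero_of_lt K (by omega)).symm

theorem W_zero' : K.W 0 = 1 := by
  rw [Corner.W, coeff_add, K.hw, add_zero, coeff_one_zero]

theorem W_pos {k : ℕ} (hk : k ≠ 0) : K.W k = K.w.coeff k := by
  rw [Corner.W, coeff_add, Polynomial.coeff_one, if_neg hk, zero_add]

theorem W_deg (k : ℕ) : K.μ.degree + (K.W k).totalDegree < K.D := by
  rcases eq_or_ne k 0 with rfl | hk
  · rw [W_zero', MvPolynomial.totalDegree_one]; exact K.hμ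
  · rw [W_pos K hk]; exact K.hdeg k

theorem clP_hom (l : Fin n) : (clP n E l).IsHomogeneous 1 :=
  MvPolynomial.IsHomogeneous.sum _ _ _ fun i _ => MvPolynomial.isHomogeneous_X E i

theorem SigP_hom : (SigP n E).IsHomogeneous 1 :=
  MvPolynomial.IsHomogeneous.sum _ _ _ fun i _ => MvPolynomial.isHomogeneous_X E i

theorem homD_hom (D : ℕ) (h : MvPolynomial (Fin n) E) (hh : h.totalDegree ≤ D) :
    (homD D h).IsHomogeneous D := by
  rw [← MvPolynomial.support_sum_monomial_coeff h, map_sum]
  refine MvPolynomial.IsHomogeneous.sum _ _ _ fun γ hγ => ?_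
  rw [homD, linMon_monomial, MvPolynomial.smul_eq_C_mul]
  have h1 : γ.degree ≤ D := le_trans (MvPolynomial.le_totalDegree hγ) hh
  have h2 : (∏ l, clP n E l ^ γ l).IsHomogeneous (∑ l, 1 * γ l) :=
    MvPolynomial.IsHomogeneous.prod _ _ _ fun l _ => (clP_hom l).pow _
  have h3 := (((MvPolynomial.isHomogeneous_C (Fin (n + 1)) (MvPolynomial.coeff γ h)).mul
    ((SigP_hom (n := n) (E := E)).pow (D - γ.degree))).mul h2)
  have h4 : ∑ l, 1 * γ l = γ.degree := by
    simp [Finsupp.degree_eq_sum]
  have h5 : 0 + 1 * (D - γ.degree) + ∑ l, 1 * γ l = D := by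
    rw [h4]; omega
  rw [h5, mul_assoc] at h3
  exact h3

theorem G_hom (k : ℕ) : (K.G k).IsHomogeneous K.D := by
  apply homD_hom
  refine le_trans (MvPolynomial.totalDegree_mul _ _) ?_
  have h1 := W_deg K k
  have h2 : (MvPolynomial.monomial K.μ (1 : E)).totalDegree ≤ K.μ.degree :=
    MvPolynomial.totalDegree_monomial_le _ _
  omega

theorem GPpow_hom (k t : ℕ) : ((K.GP ^ k).coeff t).IsHomogeneous (K.D * k) := by
  induction k generalizing t with
  | zero =>
    rw [pow_zero, mul_zero, Polynomial.coeff_one]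
    split_ifs
    · exact MvPolynomial.isHomogeneous_one _ _
    · exact MvPolynomial.isHomogeneous_zero _ _ _
  | succ k ih =>
    rw [pow_succ, Polynomial.coeff_mul, mul_add, mul_one]
    refine MvPolynomial.IsHomogeneous.sum _ _ _ fun x _ => ?_
    rw [GP_coeff]
    exact (ih _).mul (G_hom K _)

theorem fer_hom (D : ℕ) : (fer n D E).IsHomogeneous D := by
  refine MvPolynomial.IsHomogeneous.sum _ _ _ fun i _ => ?_
  simpa using (MvPolynomial.isHomogeneous_X E i).pow D

end GP

end Pool.CUBE.J83
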